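import Mathlib
import Pool.Agent.Helper18.Bogatyi

set_option autoImplicit false

namespace Pool.Agent.Results.MP_01ee34_gt.Disproof

open Pool.Agent.Helper18.Bogatyi

/-- The assertion of the question, quantified over all `d ≥ 1` and `m ≥ 1`, is false. -/
theorem result : ¬ (∀ d m : ℕ, 1 ≤ d → 1 ≤ m → BogatyiProperty d m) :=
  fun H => not_property_two 2 le_rfl (H 2 2 (by norm_num) (by norm_num))

end Pool.Agent.Results.MP_01ee34_gt.Disproof
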