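import Mathlib
import Pool.Agent.Helper18.Bogatyi

set_option autoImplicit false

namespace Pool.Agent.Results.MP_01ee34_gt.EveryDimension

open Pool.Agent.Helper18.Bogatyi

/-- In every dimension `d ≥ 2` the assertion fails already for covers by two closed sets. -/
theorem result : ∀ d : ℕ, 2 ≤ d → ¬ BogatyiProperty d 2 :=
  fun d hd => not_property_two d hd

end Pool.Agent.Results.MP_01ee34_gt.EveryDimension
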